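import Pool.Agent.Y171.CG.Tool

/-! CG-FB, CG-BB, CG-VER: basic facts -/

open MeasureTheory Finset Set Filter Topology
open Pool.Agent.Y171.CG

namespace Pool.Agent.Y563.CG.Fb

/-- restriction to the coordinates in the image of an injective map preserves the measure -/
theorem mp_comp {m k : ℕ} (e : Fin m → Fin k) (he : Function.Injective e) :
    MeasurePreserving (fun u : Fin k → ℝ => u ∘ e) (cube k) (cube m) := by
  have hmeas : Measurable (fun u : Fin k → ℝ => u ∘ e) :=
    measurable_pi_lambda _ fun i => measurable_pi_apply _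
  refine ⟨hmeas, ?_⟩
  unfold cube
  symm
  apply Measure.pi_eq
  intro s hs
  rw [Measure.map_apply hmeas (MeasurableSet.univ_pi hs)]
  have : (fun u : Fin k → ℝ => u ∘ e) ⁻¹' (Set.univ.pi s) =
      Set.univ.pi fun l : Fin k => {x : ℝ | ∀ i, e i = l → x ∈ s i} := by
    ext u
    simp only [Set.mem_preimage, Set.mem_univ_pi, Function.comp, Set.mem_ofPred_eq]
    constructor
    · rintro h l i rfl
      exact h i
    · intro h i
      exact h (e i) i rfl
  rw [this, Measure.pi_pi]
  symm
  apply Fintype.prod_of_injective e he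
  · intro l hl
    have : {x : ℝ | ∀ i, e i = l → x ∈ s i} = Set.univ := by
      ext x
      simp only [Set.mem_ofPred_eq, Set.mem_univ, iff_true]
      intro i hi
      exact absurd ⟨i, hi⟩ hl
    rw [this]
    exact measure_univ
  · intro i
    congr 1
    ext x
    simp only [Set.mem_ofPred_eq]
    constructor
    · intro h j hj
      rwa [he hj]
    · intro h
      exact h i rfl

theorem one {k : ℕ} (A : Set ℝ) : cube k {u | ∃ i, u i ∈ A} ≤ k * nu A := by
  have h1 : {u : Fin k → ℝ | ∃ i, u i ∈ A} = ⋃ i, {u | u i ∈ A} := by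
    ext u; simp
  rw [h1]
  refine (measure_iUnion_le _).trans ?_
  rw [tsum_fintype]
  have h2 : ∀ i : Fin k, cube k {u | u i ∈ A} = nu A := by
    intro i
    have : {u : Fin k → ℝ | u i ∈ A} = Set.univ.pi fun l => if l = i then A else Set.univ := by
      ext u
      simp only [Set.mem_ofPred_eq, Set.mem_univ_pi]
      constructor
      · intro h l
        split_ifs with hl
        · rwa [hl]
        · trivial
      · intro h
        have := h i
        rwa [if_pos rfl] at this
    rw [this]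
    unfold cube
    rw [Measure.pi_pi]
    rw [Finset.prod_eq_single i]
    · rw [if_pos rfl]
    · intro j _ hj
      rw [if_neg hj]; exact measure_univ
    · simp
  simp only [h2, Finset.sum_const, Finset.card_univ, Fintype.card_fin, nsmul_eq_mul, le_refl]

theorem pair {k : ℕ} (A : Set ℝ) :
    cube k {u | ∃ i j, i ≠ j ∧ u i ∈ A ∧ u j ∈ A} ≤ k ^ 2 * nu A ^ 2 := by
  have h1 : {u : Fin k → ℝ | ∃ i j, i ≠ j ∧ u i ∈ A ∧ u j ∈ A} ⊆
      ⋃ i, ⋃ j, {u | i ≠ j ∧ u i ∈ A ∧ u j ∈ A} := by
    rintro u ⟨i, j, h⟩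
    exact Set.mem_iUnion.2 ⟨i, Set.mem_iUnion.2 ⟨j, h⟩⟩
  refine (measure_mono h1).trans ((measure_iUnion_le _).trans ?_)
  rw [tsum_fintype]
  have h2 : ∀ i j : Fin k, cube k {u | i ≠ j ∧ u i ∈ A ∧ u j ∈ A} ≤ nu A ^ 2 := by
    intro i j
    by_cases hij : i = j
    · simp [hij]
    have : {u : Fin k → ℝ | i ≠ j ∧ u i ∈ A ∧ u j ∈ A} =
        Set.univ.pi fun l => if l = i ∨ l = j then A else Set.univ := by
      ext u
      simp only [Set.mem_ofPred_eq, Set.mem_univ_pi]
      constructor
      · rintro ⟨-, h, h'⟩ l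
        split_ifs with hl
        · rcases hl with rfl | rfl
          · exact h
          · exact h'
        · trivial
      · intro h
        have h3 := h i
        have h4 := h j
        rw [if_pos (Or.inl rfl)] at h3
        rw [if_pos (Or.inr rfl)] at h4
        exact ⟨hij, h3, h4⟩
    rw [this]
    unfold cube
    rw [Measure.pi_pi]
    have h5 : ∀ l : Fin k, nu (if l = i ∨ l = j then A else Set.univ) =
        if l = i ∨ l = j then nu A else 1 := by
      intro l
      split_ifs
      · rfl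
      · exact measure_univ
    simp only [h5]
    rw [Finset.prod_ite, Finset.prod_const_one, mul_one, Finset.prod_const]
    have h6 : (Finset.univ.filter fun l : Fin k => l = i ∨ l = j) = {i, j} := by
      ext l; simp
    rw [h6, Finset.card_pair hij]
  calc ∑ i : Fin k, cube k (⋃ j, {u | i ≠ j ∧ u i ∈ A ∧ u j ∈ A})
      ≤ ∑ i : Fin k, ∑ j : Fin k, nu A ^ 2 := by
        refine Finset.sum_le_sum fun i _ => (measure_iUnion_le _).trans ?_
        rw [tsum_fintype]
        exact Finset.sum_le_sum fun j _ => h2 i j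
    _ = k ^ 2 * nu A ^ 2 := by
        simp only [Finset.sum_const, Finset.card_univ, Fintype.card_fin, nsmul_eq_mul]
        ring

theorem nu_Iio (a : ℝ) : nu (Set.Iio a) ≤ ENNReal.ofReal a := by
  unfold nu
  rw [Measure.restrict_apply measurableSet_Iio]
  refine (measure_mono (t := Set.Icc 0 a) ?_).trans ?_
  · rintro x ⟨h1, h2⟩
    exact ⟨h2.1, le_of_lt h1⟩
  · rw [Real.volume_Icc]; simp

theorem nu_Ici (a : ℝ) : nu (Set.Ici a) ≤ ENNReal.ofReal (1 - a) := by
  unfold nu
  rw [Measure.restrict_apply measurableSet_Ici]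
  refine (measure_mono (t := Set.Icc a 1) ?_).trans ?_
  · rintro x ⟨h1, h2⟩
    exact ⟨h1, h2.2⟩
  · rw [Real.volume_Icc]

/-! ### joint measurability -/

theorem measurable_cnt2 {k : ℕ} (c : Fin k → ℝ) :
    Measurable (fun p : ℝ × (Fin k → ℝ) => cnt c p.1 p.2) := by
  have : (fun p : ℝ × (Fin k → ℝ) => cnt c p.1 p.2) =
      fun p => ∑ i, if p.2 i * p.1 < c i then 1 else 0 := by
    funext u
    unfold cnt
    rw [Finset.card_filter]
  rw [this]
  apply Finset.measurable_sum
  intro i _
  have hm : Measurable fun p : ℝ × (Fin k → ℝ) => p.2 i * p.1 :=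
    ((measurable_pi_apply i).comp measurable_snd).mul measurable_fst
  exact Measurable.ite (measurableSet_lt hm measurable_const) measurable_const measurable_const

theorem measurableSet_hit2 {k : ℕ} (g : ℕ → ℝ) (v : Fin k → ℝ) :
    MeasurableSet {p : ℝ × (Fin k → ℝ) | Hit g v p.1 p.2} := by
  have : {p : ℝ × (Fin k → ℝ) | Hit g v p.1 p.2} =
      ⋃ r : ℕ, {p | 2 ≤ r ∧ r ≤ cnt (fun i => g r * v i) p.1 p.2} := by
    ext u
    simp [Hit]
  rw [this]
  refine MeasurableSet.iUnion fun r => ?_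
  by_cases h : 2 ≤ r
  · simp only [h, true_and]
    exact measurableSet_le measurable_const (measurable_cnt2 _)
  · simp [h]

theorem mef : S_MEF := by
  intro g n
  unfold F
  have h := measurable_measure_prodMk_left (ν := cube n)
    (measurableSet_hit2 (k := n) g (fun _ => 1)).compl
  exact h.ennreal_toReal

theorem meb : S_MEB := by
  intro k g m
  unfold B
  have h1 : Measurable (fun p : ℝ × (Fin k → ℝ) => (p.1, fun i => 1 - p.2 i)) := by
    refine measurable_fst.prodMk (measurable_pi_lambda _ fun i => ?_)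
    exact measurable_const.sub ((measurable_pi_apply i).comp measurable_snd)
  have h := measurable_measure_prodMk_left (ν := cube k)
    ((measurableSet_hit2 (k := k) g (m false)).union (h1 (measurableSet_hit2 (k := k) g (m true))))
  exact h.ennreal_toReal

/-! ### hits -/

theorem hit_pair {k : ℕ} {g : ℕ → ℝ} {v : Fin k → ℝ} {G M z : ℝ} {u : Fin k → ℝ}
    (hg : ∀ r, 2 ≤ r → r ≤ k → ∀ i, g r * v i ≤ G * M) (hz : 0 < z) (h : Hit g v z u) :
    ∃ i j, i ≠ j ∧ u i < G * M / z ∧ u j < G * M / z := by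
  obtain ⟨r, hr, hr'⟩ := h
  have hrk : r ≤ k := hr'.trans (cnt_le _ _ _)
  have h1 : 1 < cnt (fun i => g r * v i) z u := by omega
  unfold cnt at h1
  obtain ⟨i, hi, j, hj, hij⟩ := Finset.one_lt_card.1 h1
  simp only [Finset.mem_filter, Finset.mem_univ, true_and] at hi hj
  refine ⟨i, j, hij, ?_, ?_⟩
  · rw [lt_div_iff₀ hz]; exact hi.trans_le (hg r hr hrk i)
  · rw [lt_div_iff₀ hz]; exact hj.trans_le (hg r hr hrk j)

theorem sq_le {k : ℕ} {A : Set ℝ} {a : ℝ} (ha : 0 ≤ a) (hA : nu A ≤ ENNReal.ofReal a) :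
    (cube k).real {u | ∃ i j, i ≠ j ∧ u i ∈ A ∧ u j ∈ A} ≤ (k * a) ^ 2 := by
  have h : cube k {u | ∃ i j, i ≠ j ∧ u i ∈ A ∧ u j ∈ A} ≤ ENNReal.ofReal ((k * a) ^ 2) := by
    refine (pair A).trans ?_
    rw [mul_pow, ENNReal.ofReal_mul (by positivity), ENNReal.ofReal_pow (by positivity),
      ENNReal.ofReal_pow ha, ENNReal.ofReal_natCast]
    gcongr
  have := ENNReal.toReal_mono ENNReal.ofReal_ne_top h
  rwa [ENNReal.toReal_ofReal (by positivity)] at this

theorem one_sub_F (g : ℕ → ℝ) (n : ℕ) (z : ℝ) :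
    1 - F g n z = (cube n).real {u | Hit g (fun _ => 1) z u} := by
  have h := probReal_compl_eq_one_sub (μ := cube n)
    (measurableSet_hit g (fun _ : Fin n => 1) z)
  have h2 : {u : Fin n → ℝ | ¬ Hit g (fun _ => 1) z u} = {u | Hit g (fun _ => 1) z u}ᶜ := rfl
  unfold F
  rw [h2, h]
  ring

theorem tai : S_TAI := by
  intro g n G z hg hG hz
  rw [one_sub_F]
  have hsub : {u : Fin n → ℝ | Hit g (fun _ => 1) z u} ⊆
      {u | ∃ i j, i ≠ j ∧ u i ∈ Set.Iio (G / z) ∧ u j ∈ Set.Iio (G / z)} := by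
    intro u hu
    have := hit_pair (G := G) (M := 1) (z := z)
      (fun r h1 h2 i => mul_le_mul_of_nonneg_right (hg r h1 h2) zero_le_one) hz hu
    simpa using this
  refine (measureReal_mono hsub (measure_ne_top _ _)).trans ?_
  refine (sq_le (by positivity) (nu_Iio _)).trans (le_of_eq ?_)
  rw [mul_div_assoc]

theorem tab : S_TAB := by
  intro k g m G M z hg hm hG hM hz
  have hb : ∀ x, ∀ r, 2 ≤ r → r ≤ k → ∀ i, g r * m x i ≤ G * M := fun x r h1 h2 i =>
    mul_le_mul (hg r h1 h2).2 (hm x i).2 (hm x i).1 hG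
  have ha : 0 ≤ G * M / z := by positivity
  have hsub : {u : Fin k → ℝ | Hit g (m false) z u ∨ Hit g (m true) z (fun i => 1 - u i)} ⊆
      {u | ∃ i j, i ≠ j ∧ u i ∈ Set.Iio (G * M / z) ∧ u j ∈ Set.Iio (G * M / z)} ∪
      {u | ∃ i j, i ≠ j ∧ u i ∈ Set.Ici (1 - G * M / z) ∧ u j ∈ Set.Ici (1 - G * M / z)} := by
    rintro u (hu | hu)
    · exact Or.inl (hit_pair (hb false) hz hu)
    · obtain ⟨i, j, h1, h2, h3⟩ := hit_pair (hb true) hz hu
      refine Or.inr ⟨i, j, h1, ?_, ?_⟩ <;> simp only [Set.mem_Ici] <;> linarith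
  unfold B
  refine (measureReal_mono hsub (measure_ne_top _ _)).trans ?_
  refine (measureReal_union_le _ _).trans ?_
  have h1 := sq_le (k := k) ha (nu_Iio _)
  have h2 := sq_le (k := k) ha ((nu_Ici (1 - G * M / z)).trans (by
    rw [sub_sub_cancel]))
  rw [← mul_div_assoc] at h1 h2
  linarith

theorem ant : S_ANT := by
  intro g n z
  unfold F
  have h := mp_comp (Fin.succ : Fin n → Fin (n + 1)) (Fin.succ_injective n)
  have h0 := h.measureReal_preimage
    (measurableSet_hit g (fun _ : Fin n => 1) z).compl.nullMeasurableSet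
  have h0' : {u : Fin n → ℝ | ¬ Hit g (fun _ => 1) z u} = {u | Hit g (fun _ => 1) z u}ᶜ := rfl
  rw [h0', ← h0]
  refine measureReal_mono ?_ (measure_ne_top _ _)
  intro u hu h1
  apply hu
  obtain ⟨r, h2, h3⟩ := h1
  refine ⟨r, h2, h3.trans ?_⟩
  unfold cnt
  apply Finset.card_le_card_of_injOn Fin.succ
  · intro i hi
    simpa using hi
  · exact (Fin.succ_injective n).injOn

theorem mog : S_MOG := by
  intro g g' n z h
  unfold F
  refine measureReal_mono ?_ (measure_ne_top _ _)
  intro u hu h1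
  apply hu
  obtain ⟨r, h2, h3⟩ := h1
  refine ⟨r, h2, h3.trans (cnt_mono (fun i => ?_) _ _)⟩
  exact mul_le_mul_of_nonneg_right (h r h2 (h3.trans (cnt_le _ _ _))) zero_le_one

theorem noHit {n : ℕ} {g : ℕ → ℝ} {z : ℝ} (hn : 2 ≤ n) (hz : 0 < z) {u : Fin n → ℝ}
    (h : ¬ Hit g (fun _ => 1) z u) : ∃ i, g n / z ≤ u i := by
  by_contra h1
  push Not at h1
  apply h
  refine ⟨n, hn, ?_⟩
  unfold cnt
  rw [Finset.filter_true_of_mem]
  · simp
  · intro i _
    have := (lt_div_iff₀ hz).1 (h1 i)
    simpa using this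

theorem F_le (g : ℕ → ℝ) {n : ℕ} {z : ℝ} (hn : 2 ≤ n) (hz : 0 < z) :
    F g n z ≤ n * max (1 - g n / z) 0 := by
  unfold F
  have h1 : {u : Fin n → ℝ | ¬ Hit g (fun _ => 1) z u} ⊆ {u | ∃ i, u i ∈ Set.Ici (g n / z)} :=
    fun u hu => noHit hn hz hu
  refine (measureReal_mono h1 (measure_ne_top _ _)).trans ?_
  have h2 : cube n {u | ∃ i, u i ∈ Set.Ici (g n / z)} ≤
      ENNReal.ofReal (n * max (1 - g n / z) 0) := by
    refine (one _).trans ?_
    rw [ENNReal.ofReal_mul (by positivity), ENNReal.ofReal_natCast]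
    gcongr
    exact (nu_Ici _).trans (ENNReal.ofReal_le_ofReal (le_max_left _ _))
  have := ENNReal.toReal_mono ENNReal.ofReal_ne_top h2
  rwa [ENNReal.toReal_ofReal (by positivity)] at this

theorem zer : S_ZER := by
  intro g n z hn hz h
  refine le_antisymm ((F_le g hn hz).trans ?_) (F_nonneg _ _ _)
  have : 1 ≤ g n / z := (one_le_div hz).2 h
  rw [max_eq_right (by linarith), mul_zero]

theorem sml : S_SML := by
  intro g n z e hn hg he hz h
  refine (F_le g hn hz).trans ?_
  gcongr
  refine max_le ?_ he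
  have h1 : 1 / (1 + e) ≤ g n / z := by
    rw [div_le_div_iff₀ (by linarith) hz]
    linarith
  have h2 : 1 - e ≤ 1 / (1 + e) := by
    rw [le_div_iff₀ (by linarith)]
    nlinarith
  linarith

/-! ### CG-VER -/

theorem ver : S_VER := by
  intro g k S M z hM hz hg
  set e : Fin S.card → Fin k := fun j => S.orderEmbOfFin rfl j with he
  have hinj : Function.Injective e := (S.orderEmbOfFin rfl).injective
  have hmem : ∀ j, e j ∈ S := fun j => S.orderEmbOfFin_mem rfl j
  have hran : ∀ i ∈ S, ∃ j, e j = i := by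
    intro i hi
    have := S.range_orderEmbOfFin rfl
    have h2 : i ∈ Set.range (S.orderEmbOfFin rfl) := by rw [this]; exact hi
    exact h2
  rw [one_sub_F]
  have h := mp_comp e hinj
  rw [← h.measureReal_preimage (measurableSet_hit g (fun _ => 1) _).nullMeasurableSet]
  apply measureReal_congr
  have h0 : ∀ᵐ u ∂(cube k), ∀ i, 0 ≤ u i := by
    rw [ae_iff]
    refine le_antisymm ?_ (bot_le)
    have h1 := one (k := k) (Set.Iio 0)
    have h2 := nu_Iio 0
    rw [ENNReal.ofReal_zero] at h2
    rw [le_antisymm h2 (bot_le), mul_zero] at h1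
    refine (measure_mono ?_).trans h1
    intro u hu
    simp only [Set.mem_ofPred_eq, not_forall, not_le] at hu
    exact hu
  filter_upwards [h0] with u hu
  have key : ∀ r, 2 ≤ r → cnt (fun i => g r * if i ∈ S then M else 0) z u =
      cnt (fun _ => g r * 1) (z / M) (u ∘ e) := by
    intro r hr
    unfold cnt
    symm
    apply Finset.card_bij (fun j _ => e j)
    · intro j hj
      simp only [Finset.mem_filter, Finset.mem_univ, true_and, Function.comp, mul_one,
        if_pos (hmem j)] at hj ⊢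
      rw [← mul_div_assoc, div_lt_iff₀ hM] at hj
      exact hj
    · intro a _ b _ hab
      exact hinj hab
    · intro i hi
      simp only [Finset.mem_filter, Finset.mem_univ, true_and] at hi
      by_cases hiS : i ∈ S
      · obtain ⟨j, rfl⟩ := hran i hiS
        refine ⟨j, ?_, rfl⟩
        simp only [Finset.mem_filter, Finset.mem_univ, true_and, Function.comp, mul_one]
        rw [← mul_div_assoc, div_lt_iff₀ hM]
        rwa [if_pos hiS] at hi
      · exfalso
        rw [if_neg hiS, mul_zero] at hi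
        exact absurd hi (not_lt.2 (mul_nonneg (hu i) hz.le))
  refine propext ?_
  constructor
  · rintro ⟨r, h1, h2⟩
    refine ⟨r, h1, ?_⟩
    rw [key r h1] at h2
    exact h2
  · rintro ⟨r, h1, h2⟩
    refine ⟨r, h1, ?_⟩
    rw [key r h1]
    exact h2

end Pool.Agent.Y563.CG.Fb
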