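import Pool.Agent.Y472.G.Defs
import Pool.Agent.Y391.CB.Chi2
import Pool.Agent.Y678.CB.Ciy

/-! CB3-G-CIZ: the sum over `χ = 2 π p / N`, `|p| < N / 3`, by the horizontal line through
`χ₀ + z` and the sides of a rectangle. -/

set_option autoImplicit false

namespace Pool.Agent.Y563.CG

open Filter Topology Metric Set MeasureTheory Pool.Agent.W711.HT Pool.Agent.W588.HT Pool.Agent.Y391.CB
open Pool.Agent.Y472 (wE RN)
open scoped Real Interval

theorem kN_far {N : ℕ} {h x : ℝ} (hN : Real.exp (-(N * h)) ≤ 1 / 2) :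
    ‖kN N (x + h * Complex.I)‖ ≤ 4 * Real.exp (-(N * h)) := by
  have him : ((x : ℂ) + h * Complex.I).im = h := by simp
  unfold kN
  rw [norm_div, norm_pow, norm_e, him]
  have h3 : 1 / 2 ≤ ‖1 - Complex.exp (Complex.I * N * (x + h * Complex.I))‖ := by
    have h4 := norm_sub_norm_le (1 : ℂ) (Complex.exp (Complex.I * N * (x + h * Complex.I)))
    rw [norm_one, norm_e, him] at h4
    linarith
  rw [div_le_iff₀ (by positivity)]
  have h5 : 1 / 4 ≤ ‖1 - Complex.exp (Complex.I * N * (x + h * Complex.I))‖ ^ 2 := by nlinarith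
  have := Real.exp_pos (-(N * h))
  nlinarith

theorem RN_le {N : ℕ} (h3 : 3 ≤ N) : RN N ≤ 2 * π / 3 := by
  have hpi := Real.pi_pos
  unfold Pool.Agent.Y472.RN
  have hN : (0 : ℝ) < N := by exact_mod_cast (by omega : 0 < N)
  rw [div_le_iff₀ hN]
  have h1 : 2 * (((N / 3 - 1 : ℕ) : ℕ) : ℝ) + 1 ≤ 2 * N / 3 := by
    have h2 : 3 * (2 * (N / 3 - 1) + 1) ≤ 2 * N := by omega
    have h3 : ((3 * (2 * (N / 3 - 1) + 1) : ℕ) : ℝ) ≤ ((2 * N : ℕ) : ℝ) := by exact_mod_cast h2
    push_cast at h3
    linarith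
  calc π * (2 * (((N / 3 - 1 : ℕ) : ℕ) : ℝ) + 1) ≤ π * (2 * N / 3) := by gcongr
    _ = 2 * π / 3 * N := by ring

theorem exp_RN {N : ℕ} (hN : 1 ≤ N) {σ : ℝ} (hσ : |σ| = 1) (y : ℝ) :
    Complex.exp (Complex.I * N * (σ * RN N + y * Complex.I)) = -Complex.exp (-(N * y : ℝ)) := by
  have hN' : (N : ℂ) ≠ 0 := by exact_mod_cast (by omega : N ≠ 0)
  obtain ⟨P, hP⟩ : ∃ P : ℕ, P = N / 3 - 1 := ⟨_, rfl⟩
  have key : ∀ k : ℤ, Complex.exp (Complex.I * π * (2 * k + 1)) = -1 := by
    intro k
    have h1 : Complex.I * π * (2 * k + 1) = k * (2 * π * Complex.I) + π * Complex.I := by ring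
    rw [h1, Complex.exp_add, Complex.exp_int_mul_two_pi_mul_I, Complex.exp_pi_mul_I, one_mul]
  have hI : Complex.I * Complex.I = -1 := Complex.I_mul_I
  rcases eq_or_eq_neg_of_abs_eq hσ with h | h
  · have h1 : Complex.I * N * (σ * RN N + y * Complex.I) = Complex.I * π * (2 * (P : ℤ) + 1) +
        (-(N * y : ℝ) : ℂ) := by
      rw [h, Pool.Agent.Y472.RN, ← hP]
      push_cast
      field_simp
      linear_combination (N * y : ℂ) * hI
    rw [h1, Complex.exp_add, key]
    ring
  · have h1 : Complex.I * N * (σ * RN N + y * Complex.I) =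
        Complex.I * π * (2 * ((-(P : ℤ) - 1 : ℤ) : ℂ) + 1) + (-(N * y : ℝ) : ℂ) := by
      rw [h, Pool.Agent.Y472.RN, ← hP]
      push_cast
      field_simp
      linear_combination (N * y : ℂ) * hI
    rw [h1, Complex.exp_add, key]
    ring

theorem kN_side {N : ℕ} (hN : 1 ≤ N) {σ : ℝ} (hσ : |σ| = 1) (y : ℝ) :
    ‖kN N (σ * RN N + y * Complex.I)‖ ≤ Real.exp (-(N * y)) := by
  unfold kN
  rw [exp_RN hN hσ, sub_neg_eq_add, norm_div, norm_pow]
  have h1 : (1 : ℝ) ≤ ‖(1 : ℂ) + Complex.exp (-(N * y : ℝ))‖ := by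
    have h2 : (1 : ℂ) + Complex.exp (-(N * y : ℝ)) = ((1 + Real.exp (-(N * y)) : ℝ) : ℂ) := by
      push_cast
      rfl
    rw [h2, Complex.norm_real, Real.norm_eq_abs, abs_of_pos (by positivity)]
    have := Real.exp_pos (-(N * y))
    linarith
  have h3 : ‖-Complex.exp (-(N * y : ℝ))‖ = Real.exp (-(N * y)) := by
    rw [norm_neg, Complex.norm_exp]
    simp
  rw [h3]
  exact div_le_self (Real.exp_pos _).le (one_le_pow₀ h1)

theorem RN_ge : ∀ᶠ N : ℕ in atTop, 2 ≤ RN N := by
  have hpi := Real.pi_gt_d2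
  have h1 : ∀ᶠ N : ℕ in atTop, 100 ≤ N := eventually_ge_atTop 100
  filter_upwards [h1] with N hN
  have hN0 : (100 : ℝ) ≤ N := by exact_mod_cast hN
  have hN' : (0 : ℝ) < N := by linarith
  unfold Pool.Agent.Y472.RN
  rw [le_div_iff₀ hN']
  have h2 : 2 * N ≤ 3 * (2 * (N / 3 - 1) + 1) + 7 := by omega
  have h3 : ((2 * N : ℕ) : ℝ) ≤ ((3 * (2 * (N / 3 - 1) + 1) + 7 : ℕ) : ℝ) := by exact_mod_cast h2
  push_cast at h3
  nlinarith

theorem ciz : Pool.Agent.Y472.S_CIZ := by
  intro m χ₀ z R c κ V X G hR hR1 hRy haR hc hκ hX hXe hG hG2 hMW hz hcr hV hfar hside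
  have hpi := Real.pi_pos
  have hpiC : (π : ℂ) ≠ 0 := by exact_mod_cast hpi.ne'
  have hopen : IsOpen (Rc R R) := Pool.Agent.W293.HT.isOpen_Rc _ _
  have hy0 : 0 < χ₀.im := hR.trans hRy
  obtain ⟨h, hh⟩ : ∃ h : ℝ, h = (χ₀ + z).im := ⟨_, rfl⟩
  have hh' : h = χ₀.im + z.im := by rw [hh, Complex.add_im]
  have hzim := abs_lt.1 hz.2
  have hzre := abs_lt.1 hz.1
  have hh0 : 0 < h := by rw [hh']; linarith [hzim.1]
  -- the compact set
  obtain ⟨K, hK⟩ : ∃ K : Set ℂ, K = Set.Icc (-(3 * R / 4)) (3 * R / 4) ×ℂ Set.Icc (-(R / 2)) (R / 2) :=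
    ⟨_, rfl⟩
  have hKc : IsCompact K := by rw [hK]; exact isCompact_Icc.reProdIm isCompact_Icc
  have hKm : ∀ w : ℂ, w ∈ K ↔ |w.re| ≤ 3 * R / 4 ∧ |w.im| ≤ R / 2 := by
    intro w
    rw [hK, Complex.mem_reProdIm, Set.mem_Icc, Set.mem_Icc, abs_le, abs_le]
  have hKU : K ⊆ Rc R R := by
    intro w hw
    rw [hKm] at hw
    exact ⟨by linarith [hw.1], by linarith [hw.2]⟩
  have hXd : ∀ N, Differentiable ℂ (fun w => X N (w + χ₀)) := fun N =>
    (hX N).comp (by fun_prop)
  obtain ⟨g, c', hc1, hgd, hglim⟩ := Pool.Agent.W930.HTLog.main (fun N w => X N (w + χ₀)) G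
    (Rc R R) K hopen (Pool.Agent.W293.HT.convex_Rc _ _)
    (Eventually.of_forall fun N => (hXd N).differentiableOn) hG hMW hKc hKU
  -- the phases
  obtain ⟨Q, hQ⟩ : ∃ Q : (ℂ → ℂ) → ℂ → ℂ, Q = fun g w =>
    Complex.I * (2 * m : ℤ) * (w + χ₀) ^ 2 / (4 * π) + Complex.I * (w + χ₀) + g w := ⟨_, rfl⟩
  have hpol : Differentiable ℂ
      (fun w : ℂ => Complex.I * (2 * m : ℤ) * (w + χ₀) ^ 2 / (4 * π) + Complex.I * (w + χ₀)) := by
    fun_prop
  have hQd : ∀ g : ℂ → ℂ, DifferentiableOn ℂ g (Rc R R) → DifferentiableOn ℂ (Q g) (Rc R R) := by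
    intro g hg
    rw [hQ]
    exact hpol.differentiableOn.add hg
  have hQder : ∀ w ∈ Rc R R, HasDerivAt (Q G)
      (Complex.I * m * (χ₀ + w) / π + Complex.I + deriv G w) w := by
    intro w hw
    rw [hQ]
    have h1 := (hG.differentiableAt (hopen.mem_nhds hw)).hasDerivAt
    have h0 : HasDerivAt (fun w : ℂ => w + χ₀) 1 w := (hasDerivAt_id w).add_const χ₀
    have h2 : HasDerivAt (fun w : ℂ => Complex.I * (2 * m : ℤ) * (w + χ₀) ^ 2 / (4 * π))
        (Complex.I * m * (χ₀ + w) / π) w := by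
      refine (((h0.pow 2).const_mul (Complex.I * (2 * m : ℤ))).div_const (4 * π)).congr_deriv ?_
      push_cast
      field_simp
      ring
    have h3 : HasDerivAt (fun w : ℂ => Complex.I * (w + χ₀)) Complex.I w := by
      simpa using h0.const_mul Complex.I
    exact (h2.add h3).add h1
  have hQder2 : ∀ w ∈ Rc R R, HasDerivAt
      (fun w => Complex.I * m * (χ₀ + w) / π + Complex.I + deriv G w)
      (Complex.I * m / π + deriv (deriv G) w) w := by
    intro w hw
    have h1 := ((hG.deriv hopen).differentiableAt (hopen.mem_nhds hw)).hasDerivAt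
    have h0 : HasDerivAt (fun w : ℂ => χ₀ + w) 1 w := (hasDerivAt_id w).const_add χ₀
    have h2 : HasDerivAt (fun w : ℂ => Complex.I * m * (χ₀ + w) / π) (Complex.I * m / π) w := by
      simpa using (h0.const_mul (Complex.I * m)).div_const (π : ℂ)
    exact (h2.add_const Complex.I).add h1
  have hneg2 : ∀ w ∈ Rc R R, (Complex.I * m / π + deriv (deriv G) w).re ≤ -c := by
    intro w hw
    have h1 : (Complex.I * m / π).re = 0 := by
      have : Complex.I * m / π = ((m / π : ℝ) : ℂ) * Complex.I := by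
        push_cast
        ring
      rw [this]
      simp
    rw [Complex.add_re, h1, zero_add]
    exact hG2 w hw
  have hzR : z ∈ Rc R R := ⟨by linarith [hz.1], by linarith [hz.2]⟩
  have hQlim : TendstoUniformlyOn (fun N => Q (g N)) (Q G) atTop K := by
    rw [Metric.tendstoUniformlyOn_iff] at hglim ⊢
    intro ε hε
    filter_upwards [hglim ε hε] with N hN w hw
    have := hN w hw
    rw [dist_eq_norm] at this ⊢
    have e : Q G w - Q (g N) w = G w - g N w := by
      rw [hQ]; ring
    rw [e]; exact this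
  have hin : ∀ x : ℝ, |x| ≤ R / 2 → (x : ℂ) + z.im * Complex.I ∈ Rc R R := by
    intro x hx
    refine ⟨?_, ?_⟩
    · have : ((x : ℂ) + z.im * Complex.I).re = x := by simp
      rw [this]
      linarith
    · have : ((x : ℂ) + z.im * Complex.I).im = z.im := by simp
      rw [this]
      exact hzR.2
  have hzri : (z.re : ℂ) + z.im * Complex.I = z := Complex.re_add_im z
  have hline : ∀ x : ℝ, |x| ≤ R / 2 → (Q G (x + z.im * Complex.I)).re ≤
      (Q G z).re - c / 2 * (x - z.re) ^ 2 := by
    intro x hx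
    have h1 := Pool.Agent.W293.HT.quad_bound
      (f := fun x : ℝ => (Q G (x + z.im * Complex.I)).re)
      (f' := fun x : ℝ => (Complex.I * m * (χ₀ + (x + z.im * Complex.I)) / π + Complex.I +
        deriv G (x + z.im * Complex.I)).re)
      (f'' := fun x : ℝ => (Complex.I * m / π + deriv (deriv G) (x + z.im * Complex.I)).re)
      (r := R / 2) (c := c) (x0 := z.re)
      (fun x hx => Pool.Agent.W293.HT.hasDerivAt_line (hQder _ (hin x hx)))
      (fun x hx => Pool.Agent.W293.HT.hasDerivAt_line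
        (Q := fun w => Complex.I * m * (χ₀ + w) / π + Complex.I + deriv G w)
        (hQder2 _ (hin x hx)))
      (fun x hx => hneg2 _ (hin x hx))
      (by linarith [hz.1]) (by
        show (Complex.I * m * (χ₀ + (z.re + z.im * Complex.I)) / π + Complex.I +
          deriv G (z.re + z.im * Complex.I)).re = 0
        rw [hzri, hcr, Complex.zero_re]) hx
    simp only [hzri] at h1
    exact h1
  -- the open set
  obtain ⟨U, hU⟩ : ∃ U : Set ℂ, U = {w : ℂ | |w.re| < 3 * R / 4 ∧ |w.im| < R / 2} := ⟨_, rfl⟩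
  have hUo : IsOpen U := by
    rw [hU]
    have o1 : IsOpen {w : ℂ | |w.re| < 3 * R / 4} := isOpen_lt (by fun_prop) continuous_const
    have o2 : IsOpen {w : ℂ | |w.im| < R / 2} := isOpen_lt (by fun_prop) continuous_const
    exact o1.inter o2
  have hUm : ∀ w ∈ U, |w.re| < 3 * R / 4 ∧ |w.im| < R / 2 := by
    intro w hw; rw [hU] at hw; exact hw
  have hUK : U ⊆ K := by
    intro w hw
    have := hUm w hw
    rw [hKm]
    exact ⟨this.1.le, this.2.le⟩
  have hshim : ∀ w ∈ U, χ₀.im - R / 2 ≤ (w + χ₀).im ∧ (w + χ₀).im ≤ χ₀.im + R / 2 := by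
    intro w hw
    have h1 := abs_lt.1 (hUm w hw).2
    rw [Complex.add_im]
    constructor <;> linarith [h1.1, h1.2]
  have hplim : TendstoUniformlyOn (fun N w => pN N (w + χ₀))
      (fun w => Complex.sin (w + χ₀)) atTop U := by
    have h1 := (pN_lim (h := χ₀.im - R / 2) (H := χ₀.im + R / 2) (by linarith)
      (U := {w : ℂ | χ₀.im - R / 2 ≤ w.im ∧ w.im ≤ χ₀.im + R / 2}) (fun w hw => hw)).comp
      (fun w : ℂ => w + χ₀)
    exact h1.mono hshim
  have hderQ : deriv (Q G) z = 0 := by rw [(hQder z hzR).deriv, hcr]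
  have hderQ2 : deriv (deriv (Q G)) z = Complex.I * m / π + deriv (deriv G) z := by
    have h1 : deriv (Q G) =ᶠ[𝓝 z] fun w => Complex.I * m * (χ₀ + w) / π + Complex.I + deriv G w := by
      filter_upwards [hopen.mem_nhds hzR] with w hw
      exact (hQder w hw).deriv
    rw [h1.deriv_eq, (hQder2 z hzR).deriv]
  have hPz : Complex.sin (z + χ₀) ≠ 0 := by
    intro h0
    rw [Complex.sin_eq_zero_iff] at h0
    obtain ⟨k, hk⟩ := h0
    have h1 := congrArg Complex.im hk
    have h3 : ((k : ℂ) * π).im = 0 := by simp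
    rw [Complex.add_im, h3] at h1
    linarith [hzim.1]
  have hδ0 : 0 < R / 4 - |z.re| := by linarith [hz.1]
  have hre := abs_le.1 (le_refl |z.re|)
  have hcore := core (fun N => Q (g N)) (fun N w => pN N (w + χ₀)) (Q G)
    (fun w => Complex.sin (w + χ₀)) U (-(R / 2)) (R / 2) z hUo
    (by
      filter_upwards [hgd] with N hN
      exact (hQd _ hN.1).mono (hUK.trans hKU))
    ((hQd _ hG).mono (hUK.trans hKU)) (hQlim.mono hUK)
    (by
      filter_upwards [eventually_gt_atTop 0] with N hN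
      exact (pN_diff hN (U := {w : ℂ | 0 < w.im}) (fun w hw => hw)).comp
        (by fun_prop : Differentiable ℂ fun w : ℂ => w + χ₀).differentiableOn
        (fun w hw => by
          have := (hshim w hw).1
          show 0 < (w + χ₀).im
          linarith))
    (by fun_prop)
    hplim (by linarith [hzre.1]) (by linarith [hzre.2])
    (by
      intro x hx1 hx2
      rw [hU]
      have e1 : ((x : ℂ) + z.im * Complex.I).re = x := by simp
      have e2 : ((x : ℂ) + z.im * Complex.I).im = z.im := by simp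
      refine ⟨?_, ?_⟩
      · rw [e1]
        have : |x| ≤ R / 2 := abs_le.2 ⟨hx1, hx2⟩
        linarith
      · rw [e2]
        linarith [hz.2])
    hderQ (by
      rw [hderQ2]
      have := hneg2 z hzR
      linarith) hPz
    (by
      intro x hx1 hx2 hxz
      refine (hline x (abs_le.2 ⟨hx1, hx2⟩)).trans_lt ?_
      have h1 : 0 < (x - z.re) ^ 2 := by
        have := sub_ne_zero.2 hxz
        positivity
      nlinarith)
    hδ0 (α := fun N => -(R / 2)) (β := fun N => R / 2)
    (Eventually.of_forall fun N => ⟨le_rfl, by linarith [hre.1]⟩)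
    (Eventually.of_forall fun N => ⟨by linarith [hre.2], le_rfl⟩)
  have hQz : (Q G z).re = V := by
    rw [hQ, hV]
    congr 1
    push_cast
    field_simp
    ring
  rw [hQz] at hcore
  -- the main part
  obtain ⟨F, hF⟩ : ∃ F : ℕ → ℂ → ℂ, F = fun N χ => wE N m χ * X N χ := ⟨_, rfl⟩
  have hFd : ∀ N, Differentiable ℂ (F N) := by
    intro N
    rw [hF]
    exact (wE_diff N m).mul (hX N)
  have hFo : ∀ N w, F N (-w) = -F N w := by
    intro N w
    rw [hF]
    simp only
    rw [wE_odd, hXe, neg_mul]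
  have hint : ∀ᶠ N : ℕ in atTop, ∀ w ∈ Rc R R, F N (w + χ₀) * kN N (w + χ₀) =
      c' N * (pN N (w + χ₀) * Complex.exp (N * Q (g N) w)) := by
    filter_upwards [hgd] with N hN w hw
    rw [hF, hQ]
    exact integrand N m (w + χ₀) _ _ _ (hN.2 w hw)
  have hxh : ∀ x : ℝ, ((x + χ₀.re : ℝ) : ℂ) + h * Complex.I = x + z.im * Complex.I + χ₀ := by
    intro x
    rw [hh']
    conv_rhs => rw [← Complex.re_add_im χ₀]
    push_cast
    ring
  have hG2' : Gro (fun N => ∫ x in (χ₀.re - R / 2)..(χ₀.re + R / 2), F N (x + h * Complex.I) *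
      kN N (x + h * Complex.I)) V := by
    refine gro_norm (c := 1) one_pos hcore ?_
    filter_upwards [hint] with N h1
    have e1 : (∫ x in (χ₀.re - R / 2)..(χ₀.re + R / 2), F N (x + h * Complex.I) *
        kN N (x + h * Complex.I)) =
        c' N * (∫ x in (-(R / 2))..(R / 2),
          pN N (x + z.im * Complex.I + χ₀) *
            Complex.exp (N * Q (g N) (x + z.im * Complex.I))) := by
      rw [← intervalIntegral.integral_const_mul]
      have e2 := intervalIntegral.integral_comp_add_right (a := -(R / 2)) (b := R / 2)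
        (fun x : ℝ => F N (x + h * Complex.I) * kN N (x + h * Complex.I)) χ₀.re
      have e3 : -(R / 2) + χ₀.re = χ₀.re - R / 2 := by ring
      have e4 : R / 2 + χ₀.re = χ₀.re + R / 2 := by ring
      rw [e3, e4] at e2
      rw [← e2]
      apply intervalIntegral.integral_congr
      intro x hx
      rw [Set.uIcc_of_le (by linarith)] at hx
      show F N ((x + χ₀.re : ℝ) + h * Complex.I) * kN N ((x + χ₀.re : ℝ) + h * Complex.I) = _
      rw [hxh, h1 _ (hin x (abs_le.2 hx))]
    rw [e1, norm_mul, hc1]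
  -- the far part
  have hfarN : ∀ᶠ N : ℕ in atTop, ∀ x : ℝ, |x| ≤ 2 * π / 3 → R / 2 ≤ |x - χ₀.re| →
      ‖F N (x + h * Complex.I) * kN N (x + h * Complex.I)‖ ≤ 4 * Real.exp (N * (V - κ)) := by
    have h2 : ∀ᶠ N : ℕ in atTop, Real.exp (-(N * h)) ≤ 1 / 2 := by
      have h1 : Tendsto (fun N : ℕ => Real.exp (-(N * h))) atTop (𝓝 0) := by
        rw [Real.tendsto_exp_comp_nhds_zero]
        exact tendsto_neg_atTop_atBot.comp
          (Tendsto.atTop_mul_const hh0 tendsto_natCast_atTop_atTop)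
      exact (h1.eventually_lt_const (show (0 : ℝ) < 1 / 2 by norm_num)).mono fun N hN => hN.le
    filter_upwards [hfar, h2] with N h3 h4 x hx1 hx2
    have h5 := h3 x hx1 hx2
    rw [← hh] at h5
    have h6 := kN_far (N := N) (h := h) (x := x) h4
    rw [hF, norm_mul]
    calc ‖wE N m (x + h * Complex.I) * X N (x + h * Complex.I)‖ * ‖kN N (x + h * Complex.I)‖ ≤
        Real.exp (N * (V + h - κ)) * (4 * Real.exp (-(N * h))) := by gcongr
      _ = 4 * Real.exp (N * (V - κ)) := by
          have : Real.exp (N * (V - κ)) = Real.exp (N * (V + h - κ)) * Real.exp (-(N * h)) := by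
            rw [← Real.exp_add]; congr 1; ring
          rw [this]
          ring
  have hcont : ∀ᶠ N : ℕ in atTop,
      Continuous (fun x : ℝ => F N (x + h * Complex.I) * kN N (x + h * Complex.I)) := by
    filter_upwards [eventually_gt_atTop 0] with N hN
    apply Continuous.mul
    · exact (hFd N).continuous.comp (by fun_prop)
    · unfold kN
      apply Continuous.div
      · fun_prop
      · fun_prop
      · intro x
        exact pow_ne_zero _ (e_ne hN (by simpa using hh0))
  have hN1 : ∀ a b : ℕ → ℝ, (∀ᶠ N in atTop, ∀ x ∈ Set.uIoc (a N) (b N), |x| ≤ 2 * π / 3 ∧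
      R / 2 ≤ |x - χ₀.re|) → (∀ᶠ N in atTop, |b N - a N| ≤ 2 * π) →
      Neg (fun N => ∫ x in (a N)..(b N), F N (x + h * Complex.I) * kN N (x + h * Complex.I)) V := by
    intro a b hab hab2
    apply neg_of_bound (C := 8 * π) hκ
    filter_upwards [hfarN, hab, hab2] with N h1 h3 h4
    have h2 := intervalIntegral.norm_integral_le_of_norm_le_const
      (fun x hx => h1 x (h3 x hx).1 (h3 x hx).2)
    refine h2.trans ?_
    have hN0 : (0 : ℝ) ≤ N := Nat.cast_nonneg _
    calc 4 * Real.exp (N * (V - κ)) * |b N - a N| ≤ 4 * Real.exp (N * (V - κ)) * (2 * π) := by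
          gcongr
      _ = 8 * π * 1 * Real.exp (N * (V - κ)) := by ring
      _ ≤ 8 * π * (N + 1) * Real.exp (N * (V - κ)) := by
          gcongr
          linarith
  have haR' := abs_le.1 (show |χ₀.re| ≤ 2 - R by linarith)
  have hRN2 : ∀ N, 3 ≤ N → |RN N| ≤ π := by
    intro N hN
    rw [abs_of_nonneg (by unfold Pool.Agent.Y472.RN; positivity)]
    linarith [RN_le hN]
  have hG3 := (hG2'.add (hN1 (fun N => -RN N) (fun N => χ₀.re - R / 2) (by
      filter_upwards [RN_ge, eventually_ge_atTop 3] with N hN hN3 x hx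
      have hN2 := RN_le hN3
      rw [Set.uIoc_of_le (by linarith)] at hx
      constructor
      · rw [abs_le]
        constructor <;> linarith [hx.1, hx.2]
      · have : |x - χ₀.re| = -(x - χ₀.re) := abs_of_nonpos (by linarith [hx.2])
        rw [this]
        linarith [hx.2]) (by
      filter_upwards [eventually_ge_atTop 3] with N hN3
      have h1 := abs_le.1 (hRN2 N hN3)
      have h3 := Real.pi_gt_three
      rw [abs_le]
      constructor <;> linarith [h1.1, h1.2]))).add (hN1 (fun N => χ₀.re + R / 2) (fun N => RN N) (by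
      filter_upwards [RN_ge, eventually_ge_atTop 3] with N hN hN3 x hx
      have hN2 := RN_le hN3
      rw [Set.uIoc_of_le (by linarith)] at hx
      constructor
      · rw [abs_le]
        constructor <;> linarith [hx.1, hx.2]
      · have : |x - χ₀.re| = x - χ₀.re := abs_of_nonneg (by linarith [hx.1])
        rw [this]
        linarith [hx.1]) (by
      filter_upwards [eventually_ge_atTop 3] with N hN3
      have h1 := abs_le.1 (hRN2 N hN3)
      have h3 := Real.pi_gt_three
      rw [abs_le]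
      constructor <;> linarith [h1.1, h1.2]))
  have hG4 : Gro (fun N => -2 * ∫ x in (-RN N)..(RN N), F N (x + h * Complex.I) *
      kN N (x + h * Complex.I)) V := by
    refine gro_norm (c := 2) two_pos hG3 ?_
    filter_upwards [hcont] with N h1
    have e1 : (∫ x in (-RN N)..(RN N), F N (x + h * Complex.I) * kN N (x + h * Complex.I)) =
        (∫ x in (χ₀.re - R / 2)..(χ₀.re + R / 2), F N (x + h * Complex.I) * kN N (x + h * Complex.I)) +
        (∫ x in (-RN N)..(χ₀.re - R / 2), F N (x + h * Complex.I) * kN N (x + h * Complex.I)) +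
        ∫ x in (χ₀.re + R / 2)..(RN N), F N (x + h * Complex.I) * kN N (x + h * Complex.I) := by
      rw [← intervalIntegral.integral_add_adjacent_intervals
        (h1.intervalIntegrable (-RN N) (χ₀.re - R / 2)) (h1.intervalIntegrable _ (RN N)),
        ← intervalIntegral.integral_add_adjacent_intervals (a := χ₀.re - R / 2)
        (b := χ₀.re + R / 2) (c := RN N) (h1.intervalIntegrable _ _) (h1.intervalIntegrable _ _)]
      ring
    rw [e1, norm_mul, norm_neg, Complex.norm_ofNat]
  -- the sides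
  have hN2 : Neg (fun N => 2 * Complex.I * ∫ y in (-h)..h, F N (RN N + y * Complex.I) *
      kN N (RN N + y * Complex.I)) V := by
    apply neg_of_bound (C := 4 * h) hκ
    filter_upwards [hside, eventually_ge_atTop 1] with N h1 h4
    rw [← hh] at h1
    have hN' : (0 : ℝ) ≤ N := Nat.cast_nonneg N
    have hb : ∀ σ : ℝ, |σ| = 1 → ∀ y : ℝ, 0 ≤ y → y ≤ h →
        ‖F N (σ * RN N + y * Complex.I) * kN N (σ * RN N + y * Complex.I)‖ ≤
          Real.exp (N * (V - κ)) := by
      intro σ hσ y hy0 hy1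
      have h5 := h1 y hy0 hy1 σ hσ
      have h6 := kN_side h4 hσ y
      rw [hF, norm_mul]
      calc ‖wE N m (σ * RN N + y * Complex.I) * X N (σ * RN N + y * Complex.I)‖ *
            ‖kN N (σ * RN N + y * Complex.I)‖ ≤
          Real.exp (N * (V + y - κ)) * Real.exp (-(N * y)) := by gcongr
        _ = Real.exp (N * (V - κ)) := by
            rw [← Real.exp_add]; congr 1; ring
    have h5 : ∀ y ∈ Set.uIoc (-h) h, ‖F N (RN N + y * Complex.I) *
        kN N (RN N + y * Complex.I)‖ ≤ Real.exp (N * (V - κ)) := by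
      intro y hy
      rw [Set.uIoc_of_le (by linarith)] at hy
      rcases le_total 0 y with h0 | h0
      · have h6 := hb 1 (by norm_num) y h0 hy.2
        rw [Complex.ofReal_one, one_mul] at h6
        exact h6
      · have h6 := hb (-1) (by norm_num) (-y) (by linarith) (by linarith [hy.1])
        have e3 : ((((-1 : ℝ) : ℂ) * RN N) + (-y : ℝ) * Complex.I) = -(RN N + y * Complex.I) := by
          push_cast
          ring
        rw [e3, hFo, kN_neg, neg_mul, norm_neg] at h6
        exact h6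
    have h6 := intervalIntegral.norm_integral_le_of_norm_le_const h5
    have h7 : |h - -h| = 2 * h := by
      rw [abs_of_pos (by linarith)]
      ring
    rw [h7] at h6
    rw [norm_mul, norm_mul, Complex.norm_ofNat, Complex.norm_I, mul_one]
    have h8 : (1 : ℝ) ≤ N + 1 := by linarith
    calc 2 * ‖∫ y in (-h)..h, F N (RN N + y * Complex.I) * kN N (RN N + y * Complex.I)‖ ≤
        2 * (Real.exp (N * (V - κ)) * (2 * h)) := by linarith
      _ = 4 * h * 1 * Real.exp (N * (V - κ)) := by ring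
      _ ≤ 4 * h * (N + 1) * Real.exp (N * (V - κ)) := by
          gcongr
  have hG5 := ((hG4.add hN2).natMul).natMul
  have hG6 : Gro (fun N : ℕ => Complex.I / (2 * π) * (N * (N *
      (-2 * (∫ x in (-RN N)..(RN N), F N (x + h * Complex.I) * kN N (x + h * Complex.I)) +
      2 * Complex.I * ∫ y in (-h)..h, F N (RN N + y * Complex.I) *
      kN N (RN N + y * Complex.I))))) V := by
    refine gro_norm (c := 1 / (2 * π)) (by positivity) hG5 (Eventually.of_forall fun N => ?_)
    rw [norm_mul, norm_div, Complex.norm_I, norm_mul, Complex.norm_ofNat, Complex.norm_real,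
      Real.norm_eq_abs, abs_of_pos Real.pi_pos]
  refine hG6.log.congr' ?_
  filter_upwards [eventually_ge_atTop 3] with N hN
  have h1 := sum_deriv (N := N) (hFd N) (hFo N) (by omega) (N / 3 - 1) hh0
  have h2 : Finset.Ioo (-((N / 3 : ℕ) : ℤ)) ((N / 3 : ℕ) : ℤ) =
      Finset.Icc (-((N / 3 - 1 : ℕ) : ℤ)) ((N / 3 - 1 : ℕ) : ℤ) := by
    ext p
    rw [Finset.mem_Ioo, Finset.mem_Icc]
    have h3 : 1 ≤ N / 3 := by omega
    omega
  have h3 : (2 * ((N / 3 - 1 : ℕ) : ℝ) + 1) * π / N = RN N := by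
    unfold Pool.Agent.Y472.RN
    ring
  rw [h3] at h1
  rw [h2, ← h1, hF]

end Pool.Agent.Y563.CG
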