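import Pool.Agent.Y171.CG.Tool

/-! CG-EXI: existence of the sequence -/

open MeasureTheory Finset Set Filter Topology
open Pool.Agent.Y171.CG

namespace Pool.Agent.Y563.CG.Exi

theorem F_congr (hMo : S_MOG) {g g' : ℕ → ℝ} {n : ℕ} (h : ∀ r, 2 ≤ r → r ≤ n → g r = g' r) :
    F g n = F g' n := by
  funext z
  exact le_antisymm (hMo g' g n z fun r h1 h2 => (h r h1 h2).ge)
    (hMo g g' n z fun r h1 h2 => (h r h1 h2).le)

theorem J_congr (hMo : S_MOG) {g g' : ℕ → ℝ} {n : ℕ} (h : ∀ r, 2 ≤ r → r ≤ n → g r = g' r) :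
    J g n = J g' n := by
  unfold J
  rw [F_congr hMo h]

theorem F_one (g : ℕ → ℝ) (z : ℝ) : F g 1 z = 1 := by
  unfold F
  have : {u : Fin 1 → ℝ | ¬ Hit g (fun _ => 1) z u} = Set.univ := by
    ext u
    simp only [Set.mem_ofPred_eq, Set.mem_univ, iff_true]
    rintro ⟨r, h1, h2⟩
    have := h2.trans (cnt_le _ _ _)
    omega
  rw [this]
  simp

/-- the hypotheses on the first part of the sequence -/
def Pre (g : ℕ → ℝ) (n : ℕ) : Prop :=
  (∀ r, 2 ≤ r → r < n → 0 < g r) ∧ (∀ r t, 2 ≤ r → r ≤ t → t < n → g r ≤ g t) ∧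
    ∀ m : ℕ, 2 ≤ m → m < n → J g m = (m : ℝ) - 1

def Ext (g : ℕ → ℝ) (n : ℕ) (x : ℝ) : Prop :=
  0 < x ∧ (∀ r, 2 ≤ r → r < n → g r ≤ x) ∧ J (Function.update g n x) n = (n : ℝ) - 1

theorem ext_two (hR : S_REC) (g : ℕ → ℝ) : Ext g 2 (1 / 2) := by
  refine ⟨by norm_num, fun r h1 h2 => by omega, ?_⟩
  have h := hR (Function.update g 2 (1 / 2)) 2 le_rfl ?_ ?_
  · rw [h]
    have h1 : ∀ z, F (Function.update g 2 (1 / 2)) (2 - 1) z = 1 := fun z => F_one _ z
    simp only [h1, sub_self, integral_zero, Function.update_self]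
    norm_num
  · intro r h1 h2
    obtain rfl : r = 2 := by omega
    simp
  · intro r h1 h2
    obtain rfl : r = 2 := by omega
    simp

theorem ext_big (hR : S_REC) (hZ : S_ZER) (hMo : S_MOG) (hM : S_MEF) (hT : S_TAI)
    (g : ℕ → ℝ) (m : ℕ) (hm : 2 ≤ m) (hg : Pre g (m + 1)) : ∃ x, Ext g (m + 1) x := by
  obtain ⟨hpos, hmon, hJ⟩ := hg
  have hgm : 0 < g m := hpos m hm (by omega)
  have hJm : J g m = (m : ℝ) - 1 := hJ m hm (by omega)
  set f : ℝ → ℝ := fun z => 1 - F g m z with hf
  have hfm : Measurable f := measurable_const.sub (hM g m)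
  have hf0 : ∀ z, 0 ≤ f z := fun z => sub_nonneg.2 (F_le_one g m z)
  have hf1 : ∀ z, f z ≤ 1 := fun z => by
    have := F_nonneg g m z
    simp only [hf]; linarith
  have hfl : ∀ z, 0 < z → z ≤ g m → f z = 1 := fun z h1 h2 => by
    simp only [hf, hZ g m z hm h1 h2, sub_zero]
  -- interval integrability
  have hii : ∀ a b, IntervalIntegrable f volume a b := by
    intro a b
    rw [intervalIntegrable_iff]
    refine Integrable.mono' (g := fun _ => (1 : ℝ)) ?_ hfm.aestronglyMeasurable ?_
    · exact integrableOn_const (by simp [Set.uIoc]) (by simp)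
    · refine Eventually.of_forall fun z => ?_
      rw [Real.norm_of_nonneg (hf0 z)]
      exact hf1 z
  have hint : ∀ a, 0 < a → IntegrableOn f (Ioi a) := by
    intro a ha
    have h1 : IntegrableOn (fun z : ℝ => ((m : ℝ) * g m) ^ 2 * z ^ (-2 : ℝ)) (Ioi a) :=
      ((integrableOn_Ioi_rpow_iff ha).2 (by norm_num)).const_mul _
    refine Integrable.mono' h1 hfm.aestronglyMeasurable ?_
    refine (ae_restrict_iff' measurableSet_Ioi).2 (Eventually.of_forall fun z hz => ?_)
    have hz0 : 0 < z := ha.trans hz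
    rw [Real.norm_of_nonneg (hf0 z)]
    have := hT g m (g m) z (fun r h1 h2 => hmon r m h1 h2 (by omega)) hgm.le hz0
    refine this.trans (le_of_eq ?_)
    rw [div_pow, Real.rpow_neg hz0.le]
    norm_num
    rw [div_eq_mul_inv]
  -- `psi`
  have hsplit : ∀ x, 0 < x → ∀ y, x ≤ y →
      ∫ z in Ioi x, f z = (∫ z in x..y, f z) + ∫ z in Ioi y, f z := by
    intro x hx y hxy
    rw [intervalIntegral.integral_of_le hxy]
    rw [← setIntegral_union (Set.Ioc_disjoint_Ioi le_rfl) measurableSet_Ioi
      ((hint x hx).mono_set Ioc_subset_Ioi_self) (hint y (hx.trans_le hxy))]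
    rw [Set.Ioc_union_Ioi_eq_Ioi hxy]
  have hint0 : IntegrableOn f (Ioi 0) := by
    rw [← Set.Ioc_union_Ioi_eq_Ioi hgm.le]
    refine IntegrableOn.union ?_ (hint _ hgm)
    have := hii 0 (g m)
    rwa [intervalIntegrable_iff_integrableOn_Ioc_of_le hgm.le] at this
  have hpsi : g m + ∫ z in Ioi (g m), f z = (m : ℝ) - 1 := by
    rw [← hJm]
    unfold J
    change _ = ∫ z in Ioi (0 : ℝ), f z
    rw [← Set.Ioc_union_Ioi_eq_Ioi hgm.le,
      setIntegral_union (Set.Ioc_disjoint_Ioi le_rfl) measurableSet_Ioi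
      (hint0.mono_set Ioc_subset_Ioi_self) (hint _ hgm)]
    congr 1
    rw [setIntegral_congr_fun (g := fun _ => (1 : ℝ)) measurableSet_Ioc
      (fun z hz => hfl z hz.1 hz.2)]
    simp [hgm.le]
  set psi : ℝ → ℝ := fun x => x + ((∫ z in Ioi (g m), f z) - ∫ z in (g m)..x, f z) with hpsid
  have hpsic : Continuous psi :=
    continuous_id.add (continuous_const.sub (intervalIntegral.continuous_primitive hii _))
  have hpsie : ∀ x, g m ≤ x → psi x = x + ∫ z in Ioi x, f z := by
    intro x hx
    simp only [hpsid]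
    rw [hsplit (g m) hgm x hx]
    ring
  have hm' : (2 : ℝ) ≤ m := by exact_mod_cast hm
  set b : ℝ := max ((m : ℝ) + 1) (g m) with hb
  have hba : g m ≤ b := le_max_right _ _
  set v : ℝ := (m : ℝ) ^ 2 / (m + 1) with hv
  have h1 : psi (g m) ≤ v := by
    rw [hpsie _ le_rfl, hpsi, hv, le_div_iff₀ (by linarith)]
    nlinarith
  have h2 : v ≤ psi b := by
    rw [hpsie _ hba]
    have h3 : 0 ≤ ∫ z in Ioi b, f z := setIntegral_nonneg measurableSet_Ioi fun z _ => hf0 z
    have h4 : (m : ℝ) + 1 ≤ b := le_max_left _ _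
    have h5 : v ≤ (m : ℝ) + 1 := by
      rw [hv, div_le_iff₀ (by linarith)]
      nlinarith
    linarith
  obtain ⟨x, hx, hxv⟩ := intermediate_value_Icc hba hpsic.continuousOn ⟨h1, h2⟩
  refine ⟨x, hgm.trans_le hx.1, fun r h3 h4 => (hmon r m h3 (by omega) (by omega)).trans hx.1, ?_⟩
  have hup : ∀ r, r ≤ m → Function.update g (m + 1) x r = g r := fun r hr =>
    Function.update_of_ne (by omega) _ _
  have h := hR (Function.update g (m + 1) x) (m + 1) (by omega) ?_ ?_
  · rw [h]
    simp only [Nat.add_sub_cancel, Function.update_self]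
    rw [F_congr hMo (g := Function.update g (m + 1) x) (g' := g) fun r _ hr => hup r hr]
    change _ * (x + ∫ z in Ioi x, f z) = _
    rw [← hpsie x hx.1, hxv, hv]
    push_cast
    have : (m : ℝ) ≠ 0 := by linarith
    have : (m : ℝ) + 1 ≠ 0 := by linarith
    rw [add_sub_cancel_right]
    field_simp
  · intro r h3 h4
    rcases Nat.lt_or_ge m r with h5 | h5
    · obtain rfl : r = m + 1 := by omega
      simpa using hgm.trans_le hx.1
    · rw [hup r h5]
      exact hpos r h3 (by omega)
  · intro r h3 h4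
    rcases Nat.lt_or_ge m r with h5 | h5
    · obtain rfl : r = m + 1 := by omega
      exact le_rfl
    · rw [hup r h5, Function.update_self]
      exact (hmon r m h3 (by omega) (by omega)).trans hx.1

theorem ext (hR : S_REC) (hZ : S_ZER) (hMo : S_MOG) (hM : S_MEF) (hT : S_TAI)
    (g : ℕ → ℝ) (n : ℕ) (hn : 2 ≤ n) (hg : Pre g n) : ∃ x, Ext g n x := by
  rcases Nat.lt_or_ge n 3 with h | h
  · obtain rfl : n = 2 := by omega
    exact ⟨1 / 2, ext_two hR g⟩
  · obtain ⟨m, rfl⟩ : ∃ m, n = m + 1 := ⟨n - 1, by omega⟩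
    exact ext_big hR hZ hMo hM hT g m (by omega) hg

open Classical in
/-- the next value -/
noncomputable def nxt (g : ℕ → ℝ) (n : ℕ) : ℝ :=
  if h : ∃ x, Ext g n x then h.choose else 0

/-- the sequence of sequences -/
noncomputable def G : ℕ → ℕ → ℝ
  | 0 => fun _ => 0
  | n + 1 => Function.update (G n) n (nxt (G n) n)

theorem G_eq (n r : ℕ) (h : r < n) : G n r = G (r + 1) r := by
  induction n with
  | zero => omega
  | succ n ih =>
    rcases Nat.lt_or_ge r n with h1 | h1
    · rw [← ih h1]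
      conv_lhs => rw [G]
      exact Function.update_of_ne (by omega) _ _
    · obtain rfl : r = n := by omega
      rfl

theorem pre_congr (hMo : S_MOG) {g g' : ℕ → ℝ} {n : ℕ} (h : ∀ r, r < n → g r = g' r)
    (hg : Pre g n) : Pre g' n := by
  refine ⟨fun r h1 h2 => ?_, fun r t h1 h2 h3 => ?_, fun m h1 h2 => ?_⟩
  · rw [← h r h2]; exact hg.1 r h1 h2
  · rw [← h r (by omega), ← h t h3]; exact hg.2.1 r t h1 h2 h3
  · rw [← J_congr hMo (g := g) (g' := g') fun r _ hr => h r (by omega)]; exact hg.2.2 m h1 h2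

theorem t (hR : S_REC) (hZ : S_ZER) (hMo : S_MOG) (hM : S_MEF) (hT : S_TAI) : S_EXI := by
  have key : ∀ n, Pre (fun r => G (r + 1) r) n := by
    intro n
    induction n with
    | zero => exact ⟨fun r _ h => by omega, fun r t _ _ h => by omega, fun m _ h => by omega⟩
    | succ n ih =>
      rcases Nat.lt_or_ge n 2 with h2 | h2
      · exact ⟨fun r _ h => by omega, fun r t _ _ h => by omega, fun m _ h => by omega⟩
      · have h3 : Pre (G n) n := pre_congr hMo (fun r hr => (G_eq n r hr).symm) ih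
        have h4 := ext hR hZ hMo hM hT (G n) n h2 h3
        have h5 : Ext (G n) n (nxt (G n) n) := by
          unfold nxt
          rw [dif_pos h4]
          exact h4.choose_spec
        have h6 : G (n + 1) n = nxt (G n) n := by
          rw [G]; simp
        obtain ⟨h7, h8, h9⟩ := h5
        refine ⟨fun r h1 h => ?_, fun r t h1 h h' => ?_, fun m h1 h => ?_⟩
        · rcases Nat.lt_or_ge r n with h10 | h10
          · exact ih.1 r h1 h10
          · obtain rfl : r = n := by omega
            show 0 < G (r + 1) r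
            rw [h6]; exact h7
        · rcases Nat.lt_or_ge t n with h10 | h10
          · exact ih.2.1 r t h1 h h10
          · obtain rfl : t = n := by omega
            show G (r + 1) r ≤ G (t + 1) t
            rcases Nat.lt_or_ge r t with h11 | h11
            · rw [h6, ← G_eq t r h11]
              exact h8 r h1 h11
            · obtain rfl : r = t := by omega
              exact le_rfl
        · rcases Nat.lt_or_ge m n with h10 | h10
          · exact ih.2.2 m h1 h10
          · obtain rfl : m = n := by omega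
            rw [← h9]
            apply J_congr hMo
            intro r _ hr
            show G (r + 1) r = G (m + 1) r
            exact (G_eq (m + 1) r (by omega)).symm
  refine ⟨fun r => G (r + 1) r, fun r hr => (key (r + 1)).1 r hr (by omega), fun r t h1 h2 =>
    (key (t + 1)).2.1 r t h1 h2 (by omega), fun n hn => (key (n + 1)).2.2 n hn (by omega)⟩

end Pool.Agent.Y563.CG.Exi
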