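import Pool.Agent.Y171.CG.Stm2
import Pool.Agent.Y367.CG.Cmu
import Pool.Agent.Y301.CG.HYB
import Pool.Agent.Y563.CG.Fb

/-! CG-WAU: the antithetic functional is asymptotically at most the independent one (bounded `g`) -/

open MeasureTheory Finset Set Filter Topology

namespace Pool.Agent.Y563.CG.Wau

open Pool.Agent.Y171.CG Pool.Agent.Y367.CG

theorem lbd {g : ℕ → ℝ} {x : ℝ} (hx : 0 < x) (hg : ∀ r, 2 ≤ r → 0 ≤ g r ∧ g r ≤ x) : LBd g :=
  fun _ => ⟨x, hx.le, fun r hr _ => (hg r hr).2⟩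

/-- Upper bound of the antithetic functional. -/
theorem B_le (hH : S_HYB) (hM : S_MEF) (hT : S_TAI) (hMB : S_MEB)
    (hTB : S_TAB) {g : ℕ → ℝ} {x : ℝ} (hx : 0 < x) (hg : ∀ r, 2 ≤ r → 0 ≤ g r ∧ g r ≤ x)
    (k : ℕ) {e : ℝ} (he : 0 < e) (he1 : e ≤ 1) :
    ∫ z in Ioi (0 : ℝ), B g (fun (_ : Bool) (_ : Fin k) => (1 : ℝ)) z ≤
      (1 + e) ^ 2 * x / (2 * e) + (1 + e) * Psi g k k 1 1 := by
  set z0 : ℝ := (1 + e) ^ 2 * x / (2 * e) with hz0
  have hz0p : 0 < z0 := by positivity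
  have hq0 : (0 : ℝ) < (1 + e)⁻¹ := by positivity
  have hpsi : (1 + e) * Psi g k k 1 1 =
      ∫ z in Ioi (0 : ℝ), (1 - F g k ((1 + e)⁻¹ * z) * F g k ((1 + e)⁻¹ * z)) := by
    have := integral_comp (fun z => 1 - F g k z * F g k z) hq0
    rw [this, inv_inv, Psi_one]
  have hi2 : IntegrableOn (fun z => 1 - F g k ((1 + e)⁻¹ * z) * F g k ((1 + e)⁻¹ * z)) (Ioi 0) :=
    int_comp (fun z => 1 - F g k z * F g k z) (intFF hM hT (lbd hx hg) k k) hq0
  have hz0I : z0 = ∫ z in Ioi (0 : ℝ), (Set.Ioc (0 : ℝ) z0).indicator (fun _ => (1 : ℝ)) z := by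
    rw [setIntegral_indicator measurableSet_Ioc]
    have : Set.Ioi (0 : ℝ) ∩ Set.Ioc 0 z0 = Set.Ioc 0 z0 := by
      apply Set.inter_eq_right.mpr
      intro z hz
      exact hz.1
    rw [this, setIntegral_const]
    simp [hz0p.le]
  have hind : IntegrableOn ((Set.Ioc (0 : ℝ) z0).indicator (fun _ => (1 : ℝ))) (Ioi 0) := by
    apply Integrable.restrict
    rw [integrable_indicator_iff measurableSet_Ioc]
    exact integrableOn_const (by simp)
  rw [hpsi, hz0I, ← integral_add hind hi2]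
  have hiB : IntegrableOn (fun z => B g (fun (_ : Bool) (_ : Fin k) => (1 : ℝ)) z)
      (Ioi 0) := intBB hMB hTB k hx.le fun r hr _ => hg r hr
  refine setIntegral_mono_on hiB (hind.add hi2) measurableSet_Ioi fun z hz => ?_
  have hzp : (0 : ℝ) < z := hz
  have a1 := F_nonneg g k ((1 + e)⁻¹ * z)
  have a2 := F_le_one g k ((1 + e)⁻¹ * z)
  rcases le_or_gt z z0 with h | h
  · have hmem : z ∈ Set.Ioc (0 : ℝ) z0 := ⟨hzp, h⟩
    rw [Set.indicator_of_mem hmem]
    have := B_le_one g (fun (_ : Bool) (_ : Fin k) => (1 : ℝ)) z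
    nlinarith
  · have hmem : z ∉ Set.Ioc (0 : ℝ) z0 := fun h' => absurd h'.2 (not_le.mpr h)
    rw [Set.indicator_of_notMem hmem, zero_add]
    have h1 : (1 + e) ^ 2 * x ≤ 2 * e * z := by
      rw [hz0, div_lt_iff₀ (by positivity)] at h
      linarith
    refine (hH k g x e z (fun r hr => hg r hr) he he1 hzp h1).trans ?_
    have h2 : z / (1 + e) = (1 + e)⁻¹ * z := by rw [div_eq_inv_mul]
    rw [h2]
    nlinarith

theorem J_le (hM : S_MEF) (hT : S_TAI) {g : ℕ → ℝ} {x : ℝ} (hx : 0 < x)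
    (hg : ∀ r, 2 ≤ r → 0 ≤ g r ∧ g r ≤ x) {k : ℕ} (hk : 0 < k) : J g k ≤ 2 * (k * x) := by
  have hk0 : (0 : ℝ) < k := by exact_mod_cast hk
  have hkx : 0 < k * x := by positivity
  have hi := intB hM hT (lbd hx hg) k
  have h1 : J g k = (∫ z in Set.Ioc 0 (k * x), (1 - F g k z)) +
      ∫ z in Set.Ioi (k * x), (1 - F g k z) := by
    unfold J
    rw [← Set.Ioc_union_Ioi_eq_Ioi hkx.le,
      setIntegral_union (Set.Ioc_disjoint_Ioi le_rfl) measurableSet_Ioi
      (hi.mono_set Ioc_subset_Ioi_self) (hi.mono_set (Set.Ioi_subset_Ioi hkx.le))]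
  have h2 : ∫ z in Set.Ioc 0 (k * x), (1 - F g k z) ≤ k * x := by
    have : ∫ z in Set.Ioc 0 (k * x), (1 - F g k z) ≤ ∫ z in Set.Ioc 0 (k * x), (1 : ℝ) := by
      refine setIntegral_mono_on (hi.mono_set Ioc_subset_Ioi_self)
        (integrableOn_const (by rw [Real.volume_Ioc]; exact ENNReal.ofReal_ne_top))
        measurableSet_Ioc fun z _ => ?_
      have := F_nonneg g k z
      linarith
    refine this.trans (le_of_eq ?_)
    simp [hkx.le]
  have h3 : ∫ z in Set.Ioi (k * x), (1 - F g k z) ≤ k * x := by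
    have h4 : ∫ z in Set.Ioi (k * x), (1 - F g k z) ≤
        ∫ z in Set.Ioi (k * x), (k * x) ^ 2 * z ^ (-2 : ℝ) := by
      refine setIntegral_mono_on (hi.mono_set (Set.Ioi_subset_Ioi hkx.le))
        ((integrableOn_Ioi_rpow_of_lt (by norm_num) hkx).const_mul _) measurableSet_Ioi
        fun z hz => ?_
      have hz0 : 0 < z := hkx.trans hz
      refine (hT g k x z (fun r hr _ => (hg r hr).2) hx.le hz0).trans (le_of_eq ?_)
      have h4 : z ^ (-2 : ℝ) = (z ^ 2)⁻¹ := by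
        rw [Real.rpow_neg hz0.le]
        norm_cast
      rw [h4, div_pow, div_eq_mul_inv]
    refine h4.trans (le_of_eq ?_)
    rw [integral_const_mul, integral_Ioi_rpow_of_lt (by norm_num) hkx]
    have h5 : (k * x) ^ ((-2 : ℝ) + 1) = (k * x)⁻¹ := by
      rw [show (-2 : ℝ) + 1 = -1 by norm_num, Real.rpow_neg_one]
    rw [h5]
    field_simp
    norm_num
  linarith

theorem W_le (hM : S_MEF) (hT : S_TAI) {g : ℕ → ℝ} {x : ℝ} (hx : 0 < x)
    (hg : ∀ r, 2 ≤ r → 0 ≤ g r ∧ g r ≤ x) {k : ℕ} (hk : 0 < k) : W g k ≤ 2 * x := by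
  have hk0 : (0 : ℝ) < k := by exact_mod_cast hk
  have h1 : Psi g k k 1 1 ≤ 2 * J g k := by
    rw [Psi_one]
    unfold J
    rw [← integral_const_mul]
    refine setIntegral_mono_on (intFF hM hT (lbd hx hg) k k)
      ((intB hM hT (lbd hx hg) k).const_mul 2) measurableSet_Ioi fun z _ => ?_
    have := F_nonneg g k z
    have := F_le_one g k z
    nlinarith
  have h2 := J_le hM hT hx hg hk
  unfold W
  rw [one_div, inv_mul_le_iff₀ (by positivity)]
  nlinarith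

/-- `S_WAU`. -/
theorem t : S_WAU := by
  intro g x hx hg e' he'
  have hM := Pool.Agent.Y563.CG.Fb.mef
  have hT := Pool.Agent.Y563.CG.Fb.tai
  set e : ℝ := min 1 (e' / (4 * x)) with hedef
  have he : 0 < e := lt_min one_pos (by positivity)
  have he1 : e ≤ 1 := min_le_left _ _
  have he4 : e * (4 * x) ≤ e' := by
    rw [← le_div_iff₀ (by positivity)]
    exact min_le_right _ _
  set z0 : ℝ := (1 + e) ^ 2 * x / (2 * e) with hz0
  have hz0p : 0 < z0 := by positivity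
  have t2 : Tendsto (fun n : ℕ => 1 / (n : ℝ)) atTop (𝓝 0) := tendsto_one_div_atTop_nhds_zero_nat
  have t3 : Tendsto (fun n : ℕ => z0 / 2 * (1 / (n : ℝ))) atTop (𝓝 (z0 / 2 * 0)) :=
    t2.const_mul _
  rw [mul_zero] at t3
  have h3 : ∀ᶠ n : ℕ in atTop, z0 / 2 * (1 / (n : ℝ)) < e' / 2 :=
    (tendsto_order.mp t3).2 _ (by positivity)
  filter_upwards [eventually_gt_atTop 0, h3] with k hk hk3
  have hk0 : (0 : ℝ) < k := by exact_mod_cast hk
  have h7 := B_le Pool.Agent.Y301.CG.t_HYB hM hT Pool.Agent.Y563.CG.Fb.meb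
    Pool.Agent.Y563.CG.Fb.tab hx hg k he he1
  rw [← hz0] at h7
  have h8 : Wa g k ≤ 1 / (2 * (k : ℝ)) * (z0 + (1 + e) * Psi g k k 1 1) := by
    unfold Wa
    exact mul_le_mul_of_nonneg_left h7 (by positivity)
  have h9 : 1 / (2 * (k : ℝ)) * (z0 + (1 + e) * Psi g k k 1 1) =
      z0 / 2 * (1 / (k : ℝ)) + (1 + e) * W g k := by
    unfold W
    field_simp
  rw [h9] at h8
  have h10 := W_le hM hT hx hg hk
  nlinarith [W_nonneg g k]

end Pool.Agent.Y563.CG.Wau
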